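import Pool.Agent.H64.CB.Targets

/-!
# LEM: classes over a curve (MP_fd35e1_ag)
-/

set_option autoImplicit false

open Matrix Pool.Agent.H64.CB

namespace Pool.Agent.H48.CB

section

variable {K : Type} [Field K] [CharZero K] (W : Theory K) {n : ℕ} (V : W.Var n)

/-- `v` is homogeneous of degree `t` -/
def HD (t : ℤ) (v : Fin (W.rk V) → K) : Prop := ∀ a, v a ≠ 0 → (W.deg V a : ℤ) = t

variable {W V}

theorem inH_iff (i : ℕ) (v : Fin (W.rk V) → K) : W.InH V i v ↔ HD W V i v := by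
  unfold Theory.InH HD
  exact forall_congr' fun a => imp_congr_right fun _ => by rw [Nat.cast_inj]

theorem HD.zero (t : ℤ) : HD W V t 0 := fun _ h => absurd rfl h

theorem HD.add {t : ℤ} {v w : Fin (W.rk V) → K} (hv : HD W V t v) (hw : HD W V t w) :
    HD W V t (v + w) := by
  intro a ha
  by_cases h : v a = 0
  · exact hw a fun h' => ha (by rw [Pi.add_apply, h, h', add_zero])
  · exact hv a h

theorem HD.sub {t : ℤ} {v w : Fin (W.rk V) → K} (hv : HD W V t v) (hw : HD W V t w) :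
    HD W V t (v - w) := by
  intro a ha
  by_cases h : v a = 0
  · exact hw a fun h' => ha (by rw [Pi.sub_apply, h, h', sub_zero])
  · exact hv a h

theorem HD.smul {t : ℤ} (q : ℚ) {v : Fin (W.rk V) → K} (hv : HD W V t v) :
    HD W V t (q • v) := by
  intro a ha
  exact hv a fun h => ha (by rw [Pi.smul_apply, h, smul_zero])

theorem HD.act {t s : ℤ} {f : Matrix (Fin (W.rk V)) (Fin (W.rk V)) K} (hf : f ∈ W.cyc V V s)
    {v : Fin (W.rk V) → K} (hv : HD W V t v) : HD W V (t + 2 * s) (f *ᵥ v) := by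
  intro b hb
  have hb' : ∑ a, f b a * v a ≠ 0 := hb
  obtain ⟨a, -, ha⟩ := Finset.exists_ne_zero_of_sum_ne_zero hb'
  have h1 := W.cyc_deg V V s f hf b a (left_ne_zero_of_mul ha)
  rw [h1, hv a (right_ne_zero_of_mul ha)]

theorem HD.eq_zero_neg {t : ℤ} (ht : t < 0) {v : Fin (W.rk V) → K} (hv : HD W V t v) : v = 0 := by
  funext a
  by_contra h
  have h1 := hv a h
  omega

theorem HD.eq_zero_big {t : ℤ} (ht : 2 * (W.dim V : ℤ) < t) {v : Fin (W.rk V) → K}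
    (hv : HD W V t v) : v = 0 := by
  funext a
  by_contra h
  have h1 := hv a h
  have h2 := W.deg_le V a
  omega

theorem pj_apply (i : ℕ) (v : Fin (W.rk V) → K) (a : Fin (W.rk V)) :
    (W.pj V i *ᵥ v) a = if W.deg V a = i then v a else 0 := by
  unfold Theory.pj
  rw [Matrix.mulVec_diagonal]
  split_ifs <;> simp

theorem pj_of_HD {i : ℕ} {v : Fin (W.rk V) → K} (hv : HD W V i v) : W.pj V i *ᵥ v = v := by
  funext a
  rw [pj_apply]
  split_ifs with h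
  · rfl
  · by_contra hne
    exact h (by exact_mod_cast hv a (Ne.symm hne))

theorem HD_pj (i : ℕ) (v : Fin (W.rk V) → K) : HD W V i (W.pj V i *ᵥ v) := by
  intro a ha
  rw [pj_apply] at ha
  by_contra h
  exact ha (if_neg fun h' => h (by rw [h']))

theorem pj_mul_pj (i : ℕ) : W.pj V i * W.pj V i = W.pj V i := by
  unfold Theory.pj
  rw [Matrix.diagonal_mul_diagonal]
  congr 1
  funext a
  split_ifs <;> simp

theorem pow_mem {M : Matrix (Fin (W.rk V)) (Fin (W.rk V)) K} (hM : M ∈ W.cyc V V 1) (k : ℕ) :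
    M ^ k ∈ W.cyc V V k := by
  induction k with
  | zero => simpa using W.one_mem V
  | succ k ih =>
    have h1 := W.mul_mem V V V 1 k M hM (M ^ k) ih
    rw [← pow_succ] at h1
    rw [Nat.cast_succ, add_comm (k : ℤ) 1]
    exact h1

theorem pow_mem0 {D : Matrix (Fin (W.rk V)) (Fin (W.rk V)) K} (hD : D ∈ W.cyc V V 0) (k : ℕ) :
    D ^ k ∈ W.cyc V V 0 := by
  induction k with
  | zero => simpa using W.one_mem V
  | succ k ih =>
    have h1 := W.mul_mem V V V 0 0 D hD (D ^ k) ih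
    rwa [← pow_succ, add_zero] at h1

end

theorem aeval_mem {K : Type} [Field K] [CharZero K] {N : ℕ} (D : Matrix (Fin N) (Fin N) K)
    (A : Submodule ℚ (Fin N → K)) (hA : ∀ v ∈ A, D *ᵥ v ∈ A) (g : Polynomial ℚ) :
    ∀ v ∈ A, (Polynomial.aeval D g) *ᵥ v ∈ A := by
  have hpow : ∀ k : ℕ, ∀ v ∈ A, (D ^ k) *ᵥ v ∈ A := by
    intro k
    induction k with
    | zero => intro v hv; simpa using hv
    | succ k ih =>
      intro v hv
      rw [pow_succ, ← Matrix.mulVec_mulVec]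
      exact ih _ (hA v hv)
  induction g using Polynomial.induction_on' with
  | add p q hp hq =>
    intro v hv
    rw [map_add, Matrix.add_mulVec]
    exact A.add_mem (hp v hv) (hq v hv)
  | monomial k q =>
    intro v hv
    rw [Polynomial.aeval_monomial, ← Matrix.mulVec_mulVec]
    have h1 : (algebraMap ℚ (Matrix (Fin N) (Fin N) K) q) *ᵥ ((D ^ k) *ᵥ v) =
        q • ((D ^ k) *ᵥ v) := by
      rw [Algebra.algebraMap_eq_smul_one, Matrix.smul_mulVec, Matrix.one_mulVec]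
    rw [h1]
    exact A.smul_mem q (hpow k v hv)

/-- the step -/
theorem core (hRAT : T_RAT) {K : Type} [Field K] [CharZero K] (W : Theory K) {n : ℕ}
    (V : W.Var n) (hC : W.C V) (hB : W.B V) {M : Matrix (Fin (W.rk V)) (Fin (W.rk V)) K}
    (hM : M ∈ W.Lef V) {h : Matrix (Fin (W.rk V)) (Fin (W.rk V)) K} (hh : h ∈ W.cyc V V 1)
    (hcomm : h * M = M * h) (hsq : h * h = 0) (hrel : W.RelHard V M h) {r : ℕ}
    (hr : 2 * r < W.dim V) {w : Fin (W.rk V) → K} (hw : HD W V (2 * r : ℕ) w)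
    (hhw : h *ᵥ w ∈ W.alg V (r + 1)) :
    ∃ u ∈ W.alg V r, ∃ v : Fin (W.rk V) → K, HD W V (2 * (r : ℤ) - 2) v ∧
      h *ᵥ v ∈ W.alg V r ∧ h *ᵥ w = h *ᵥ (u + M *ᵥ v) := by
  obtain ⟨d, hd⟩ : ∃ d, d = W.dim V := ⟨_, rfl⟩
  obtain ⟨i, hi⟩ : ∃ i, i = 2 * r := ⟨_, rfl⟩
  rw [← hi] at hw hr
  rw [← hd] at hr
  have hMc : M ∈ W.cyc V V 1 := W.Lef_mem V M hM
  -- commutation
  have hc1 : ∀ v, h *ᵥ (M *ᵥ v) = M *ᵥ (h *ᵥ v) := by
    intro v
    rw [Matrix.mulVec_mulVec, Matrix.mulVec_mulVec, hcomm]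
  have hpcomm : ∀ k, h * M ^ k = M ^ k * h := by
    intro k
    induction k with
    | zero => simp
    | succ k ih => rw [pow_succ, ← mul_assoc, ih, mul_assoc, hcomm, ← mul_assoc]
  have hck : ∀ k v, h *ᵥ ((M ^ k) *ᵥ v) = (M ^ k) *ᵥ (h *ᵥ v) := by
    intro k v
    rw [Matrix.mulVec_mulVec, Matrix.mulVec_mulVec, hpcomm]
  have hs0 : ∀ v, h *ᵥ (h *ᵥ v) = 0 := by
    intro v
    rw [Matrix.mulVec_mulVec, hsq, Matrix.zero_mulVec]
  have hMM : ∀ k v, (M ^ k) *ᵥ (M *ᵥ v) = (M ^ (k + 1)) *ᵥ v := by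
    intro k v
    rw [Matrix.mulVec_mulVec, ← pow_succ]
  -- theta
  obtain ⟨θ0, hθ0, hθ1⟩ := hB M hM i (by rw [← hd]; omega)
  rw [← hd] at hθ0 hθ1
  obtain ⟨θ, hθd⟩ : ∃ θ, θ = W.pj V i * θ0 := ⟨_, rfl⟩
  have hθm : θ ∈ W.cyc V V ((i : ℤ) - d) := by
    have h1 := W.mul_mem V V V _ 0 θ0 hθ0 (W.pj V i) (hC i)
    rwa [add_zero, ← hθd] at h1
  have hθ2 : ∀ v, HD W V i v → θ *ᵥ ((M ^ (d - i)) *ᵥ v) = v := by
    intro v hv
    have h1 := congrArg (fun A : Matrix (Fin (W.rk V)) (Fin (W.rk V)) K => W.pj V i *ᵥ (A *ᵥ v))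
      hθ1
    beta_reduce at h1
    rw [← Matrix.mulVec_mulVec, ← Matrix.mulVec_mulVec, pj_of_HD hv, pj_of_HD hv] at h1
    rw [hθd, ← Matrix.mulVec_mulVec]
    exact h1
  have hθi : ∀ v, HD W V i (θ *ᵥ v) := by
    intro v
    rw [hθd, ← Matrix.mulVec_mulVec]
    exact HD_pj i _
  have hθ3 : ∀ z, HD W V (2 * (d : ℤ) - i) z → (M ^ (d - i)) *ᵥ (θ *ᵥ z) = z := by
    intro z hz
    obtain ⟨u, hu1, hu2⟩ := W.hard_surj V M hM i (by rw [← hd]; omega) z (by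
      intro a ha
      have h1 := hz a ha
      rw [← hd]
      omega)
    rw [← hd] at hu2
    rw [← hu2, hθ2 u ((inH_iff i u).1 hu1)]
  -- the operator
  obtain ⟨D, hD⟩ : ∃ D, D = W.pj V i * θ * M ^ (d - 1 - i) * h * W.pj V i := ⟨_, rfl⟩
  have hDm : D ∈ W.cyc V V 0 := by
    have h1 := W.mul_mem V V V 0 1 (W.pj V i) (hC i) h hh
    have h2 := W.mul_mem V V V _ _ _ h1 _ (pow_mem hMc (d - 1 - i))
    have h3 := W.mul_mem V V V _ _ _ h2 θ hθm
    have h4 := W.mul_mem V V V _ 0 _ h3 (W.pj V i) (hC i)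
    have e1 : (0 : ℤ) + 1 + ((d - 1 - i : ℕ) : ℤ) + ((i : ℤ) - d) + 0 = 0 := by
      push_cast [show i ≤ d - 1 by omega, show 1 ≤ d by omega]
      ring
    rw [e1] at h4
    have e2 : W.pj V i * (θ * (M ^ (d - 1 - i) * (h * W.pj V i))) = D := by
      rw [hD]
      simp only [mul_assoc]
    rwa [e2] at h4
  have hDv : ∀ v, HD W V i v → D *ᵥ v = θ *ᵥ ((M ^ (d - 1 - i)) *ᵥ (h *ᵥ v)) := by
    intro v hv
    rw [hD, ← Matrix.mulVec_mulVec, ← Matrix.mulVec_mulVec, ← Matrix.mulVec_mulVec,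
      ← Matrix.mulVec_mulVec, pj_of_HD hv, pj_of_HD (hθi _)]
  have hDi : ∀ v, HD W V i (D *ᵥ v) := by
    intro v
    rw [hD, mul_assoc, mul_assoc, mul_assoc, ← Matrix.mulVec_mulVec]
    exact HD_pj i _
  have hDpl : W.pj V i * D = D := by
    rw [hD]
    simp only [← mul_assoc]
    rw [pj_mul_pj]
  -- rational traces
  have htr : ∀ k : ℕ, ∃ q : ℚ, (D ^ (k + 1)).trace = (q : K) := by
    intro k
    obtain ⟨q, hq⟩ := W.trace_formula V (D ^ (k + 1)) (pow_mem0 hDm _)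
    refine ⟨q, ?_⟩
    rw [← hq, Matrix.trace]
    refine Finset.sum_congr rfl fun a _ => ?_
    rw [Matrix.diag_apply]
    have h1 : D ^ (k + 1) = W.pj V i * D ^ (k + 1) := by
      rw [pow_succ', ← mul_assoc, hDpl]
    have h2 : (D ^ (k + 1)) a a = if W.deg V a = i then (D ^ (k + 1)) a a else 0 := by
      conv_lhs => rw [h1]
      unfold Theory.pj
      rw [Matrix.diagonal_mul]
      split_ifs <;> simp
    by_cases ha : W.deg V a = i
    · have h3 : Even (W.deg V a) := ⟨r, by rw [ha, hi]; ring⟩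
      rw [h3.neg_one_pow, one_mul]
    · rw [h2, if_neg ha, mul_zero]
  obtain ⟨g, a, hga⟩ := hRAT K _ D htr
  -- the space `P`
  have hMh : ∀ v, HD W V i v → HD W V (2 * (d : ℤ) - i) ((M ^ (d - 1 - i)) *ᵥ (h *ᵥ v)) := by
    intro v hv
    have h1 := (hv.act hh).act (pow_mem hMc (d - 1 - i))
    have e1 : (i : ℤ) + 2 * 1 + 2 * ((d - 1 - i : ℕ) : ℤ) = 2 * (d : ℤ) - i := by
      push_cast [show i ≤ d - 1 by omega, show 1 ≤ d by omega]
      ring
    rwa [e1] at h1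
  obtain ⟨P, hP⟩ : ∃ P : Submodule ℚ (Fin (W.rk V) → K), ∀ x, x ∈ P ↔
      HD W V i x ∧ (M ^ (d - i)) *ᵥ (h *ᵥ x) = 0 := by
    refine ⟨{ carrier := {x | HD W V i x ∧ (M ^ (d - i)) *ᵥ (h *ᵥ x) = 0}, add_mem' := ?_,
              zero_mem' := ?_, smul_mem' := ?_ }, fun x => Iff.rfl⟩
    · rintro x y ⟨hx1, hx2⟩ ⟨hy1, hy2⟩
      refine ⟨hx1.add hy1, ?_⟩
      rw [Matrix.mulVec_add, Matrix.mulVec_add, hx2, hy2, add_zero]
    · exact ⟨HD.zero _, by rw [Matrix.mulVec_zero, Matrix.mulVec_zero]⟩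
    · rintro q x ⟨hx1, hx2⟩
      refine ⟨hx1.smul q, ?_⟩
      rw [Matrix.mulVec_smul, Matrix.mulVec_smul, hx2, smul_zero]
  have hDP : ∀ x ∈ P, D *ᵥ x ∈ P := by
    intro x hx
    obtain ⟨hx1, hx2⟩ := (hP x).1 hx
    refine (hP _).2 ⟨hDi x, ?_⟩
    rw [hDv x hx1, ← hck, hθ3 _ (hMh x hx1), hck, hs0, Matrix.mulVec_zero]
  have hM1 : ∀ v, (M ^ (d - 1 - i)) *ᵥ (M *ᵥ v) = (M ^ (d - i)) *ᵥ v := by
    intro v
    rw [hMM, show d - 1 - i + 1 = d - i by omega]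
  -- (5)
  have h5 : ∀ x ∈ P, h *ᵥ (D *ᵥ x) = 0 → h *ᵥ x = 0 := by
    intro x hx hhD
    obtain ⟨hx1, hx2⟩ := (hP x).1 hx
    have e1 : (M ^ (d - i)) *ᵥ (D *ᵥ x) = h *ᵥ ((M ^ (d - 1 - i)) *ᵥ x) := by
      rw [hDv x hx1, hθ3 _ (hMh x hx1), hck]
    obtain ⟨u', hu1, hu2⟩ := hrel.mid i (by rw [← hd]; omega) (D *ᵥ x)
      ((inH_iff i _).2 (hDi x)) hhD ((M ^ (d - 1 - i)) *ᵥ x) (by rw [← hd]; exact e1)
    have hu' : HD W V ((i : ℤ) - 2) u' := by
      intro a ha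
      have := hu1 a ha
      omega
    have e2 : (M ^ (d - 1 - i)) *ᵥ (h *ᵥ (M *ᵥ u' - x)) = 0 := by
      rw [Matrix.mulVec_sub, Matrix.mulVec_sub, hc1, hM1, ← hu2, e1, hck, sub_self]
    have hdeg : HD W V i (M *ᵥ u' - x) := by
      refine HD.sub ?_ hx1
      have h1 := hu'.act hMc
      have e : (i : ℤ) - 2 + 2 * 1 = i := by ring
      rwa [e] at h1
    have e3 : h *ᵥ (M *ᵥ u' - x) = 0 := by
      refine hrel.inj i (by rw [← hd]; omega) _ ((inH_iff i _).2 hdeg) ?_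
      rw [← hd]
      exact e2
    have e4 : h *ᵥ x = M *ᵥ (h *ᵥ u') := by
      rw [Matrix.mulVec_sub, sub_eq_zero] at e3
      rw [← e3, hc1]
    have e5 : h *ᵥ u' = 0 := by
      rcases Nat.lt_or_ge i 2 with hlt | hge
      · rw [hu'.eq_zero_neg (by omega), Matrix.mulVec_zero]
      · refine hrel.inj (i - 2) (by rw [← hd]; omega) u' ((inH_iff (i - 2) u').2 ?_) ?_
        · rw [show ((i - 2 : ℕ) : ℤ) = (i : ℤ) - 2 by omega]
          exact hu'
        · rw [← hd, show d - 1 - (i - 2) = d - i + 1 by omega, ← hMM, ← e4, hx2]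
    rw [e4, e5, Matrix.mulVec_zero]
  have h6 : ∀ b : ℕ, ∀ y ∈ P, (D ^ b) *ᵥ y = 0 → h *ᵥ y = 0 := by
    intro b
    induction b with
    | zero =>
      intro y _ hy0
      rw [pow_zero, Matrix.one_mulVec] at hy0
      rw [hy0, Matrix.mulVec_zero]
    | succ b ih =>
      intro y hy hyb
      rw [pow_succ, ← Matrix.mulVec_mulVec] at hyb
      exact h5 y hy (ih _ (hDP y hy) hyb)
  -- decomposition of `w`
  obtain ⟨v', hv', hxP⟩ : ∃ v', HD W V ((i : ℤ) - 2) v' ∧ w - M *ᵥ v' ∈ P := by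
    rcases Nat.lt_or_ge i 2 with hlt | hge
    · refine ⟨0, HD.zero _, ?_⟩
      rw [Matrix.mulVec_zero, sub_zero]
      refine (hP w).2 ⟨hw, ?_⟩
      have h1 := (hw.act hh).act (pow_mem hMc (d - i))
      refine h1.eq_zero_big ?_
      rw [← hd]
      push_cast [show i ≤ d by omega]
      omega
    · have hz : HD W V (2 * (d : ℤ) - i) ((M ^ (d - i)) *ᵥ w) := by
        have h1 := hw.act (pow_mem hMc (d - i))
        have e : (i : ℤ) + 2 * ((d - i : ℕ) : ℤ) = 2 * (d : ℤ) - i := by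
          push_cast [show i ≤ d by omega]
          ring
        rwa [e] at h1
      obtain ⟨u, hu1, hu2⟩ := hrel.surj (i - 2) (by rw [← hd]; omega) ((M ^ (d - i)) *ᵥ w)
        ((inH_iff _ _).2 (by
          rw [← hd, show ((2 * d - 2 - (i - 2) : ℕ) : ℤ) = 2 * (d : ℤ) - i by omega]
          exact hz))
      have hu : HD W V ((i : ℤ) - 2) u := by
        have h1 := (inH_iff (i - 2) u).1 hu1
        rwa [show ((i - 2 : ℕ) : ℤ) = (i : ℤ) - 2 by omega] at h1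
      refine ⟨u, hu, (hP _).2 ⟨?_, ?_⟩⟩
      · refine HD.sub hw ?_
        have h1 := hu.act hMc
        have e : (i : ℤ) - 2 + 2 * 1 = i := by ring
        rwa [e] at h1
      · rw [← hd, show d - 1 - (i - 2) = d - i + 1 by omega, hck] at hu2
        rw [Matrix.mulVec_sub, Matrix.mulVec_sub, hc1, hMM, hu2, sub_self]
  obtain ⟨x, hx⟩ : ∃ x, x = w - M *ᵥ v' := ⟨_, rfl⟩
  rw [← hx] at hxP
  have hwx : w = x + M *ᵥ v' := by rw [hx, sub_add_cancel]
  obtain ⟨hx1, hx2⟩ := (hP x).1 hxP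
  have hMv : HD W V i (M *ᵥ v') := by
    have h1 := hv'.act hMc
    have e : (i : ℤ) - 2 + 2 * 1 = i := by ring
    rwa [e] at h1
  have hhv : HD W V i (h *ᵥ v') := by
    have h1 := hv'.act hh
    have e : (i : ℤ) - 2 + 2 * 1 = i := by ring
    rwa [e] at h1
  have hDM : D *ᵥ (M *ᵥ v') = h *ᵥ v' := by
    rw [hDv _ hMv, hc1, hM1, hθ2 _ hhv]
  -- the classes
  have halgD : ∀ v ∈ W.alg V (r : ℤ), D *ᵥ v ∈ W.alg V (r : ℤ) := by
    intro v hv
    have h1 := W.act_mem V V 0 r D hDm v hv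
    rwa [add_zero] at h1
  have hDw : D *ᵥ w ∈ W.alg V (r : ℤ) := by
    rw [hDv w hw]
    have h1 := W.act_mem V V _ _ _ (pow_mem hMc (d - 1 - i)) _ hhw
    have h2 := W.act_mem V V _ _ _ hθm _ h1
    have e : (r : ℤ) + 1 + ((d - 1 - i : ℕ) : ℤ) + ((i : ℤ) - d) = r := by
      push_cast [show i ≤ d - 1 by omega, show 1 ≤ d by omega]
      ring
    rwa [e] at h2
  obtain ⟨u, hu⟩ : ∃ u, u = D *ᵥ ((Polynomial.aeval D g) *ᵥ w) := ⟨_, rfl⟩
  have hDg : D * Polynomial.aeval D g = Polynomial.aeval D g * D := by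
    have h1 : D * Polynomial.aeval D g = Polynomial.aeval D (Polynomial.X * g) := by
      rw [map_mul, Polynomial.aeval_X]
    have h2 : Polynomial.aeval D g * D = Polynomial.aeval D (g * Polynomial.X) := by
      rw [map_mul, Polynomial.aeval_X]
    rw [h1, h2, mul_comm]
  have hu' : u = (Polynomial.aeval D g) *ᵥ (D *ᵥ w) := by
    rw [hu, Matrix.mulVec_mulVec, hDg, ← Matrix.mulVec_mulVec]
  have hualg : u ∈ W.alg V (r : ℤ) := by
    rw [hu']
    exact aeval_mem D (W.alg V (r : ℤ)) halgD g _ hDw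
  -- `h u = h x`
  obtain ⟨Z, hZ⟩ : ∃ Z : Submodule ℚ (Fin (W.rk V) → K), ∀ y, y ∈ Z ↔
      h *ᵥ y = 0 ∧ D *ᵥ y = 0 := by
    refine ⟨{ carrier := {y | h *ᵥ y = 0 ∧ D *ᵥ y = 0}, add_mem' := ?_, zero_mem' := ?_,
              smul_mem' := ?_ }, fun y => Iff.rfl⟩
    · rintro y z ⟨hy1, hy2⟩ ⟨hz1, hz2⟩
      exact ⟨by rw [Matrix.mulVec_add, hy1, hz1, add_zero],
        by rw [Matrix.mulVec_add, hy2, hz2, add_zero]⟩
    · exact ⟨Matrix.mulVec_zero _, Matrix.mulVec_zero _⟩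
    · rintro q y ⟨hy1, hy2⟩
      exact ⟨by rw [Matrix.mulVec_smul, hy1, smul_zero], by rw [Matrix.mulVec_smul, hy2, smul_zero]⟩
  have hZv : h *ᵥ v' ∈ Z := (hZ _).2 ⟨hs0 v', by rw [hDv _ hhv, hs0, Matrix.mulVec_zero,
    Matrix.mulVec_zero]⟩
  have hZD : ∀ y ∈ Z, D *ᵥ y ∈ Z := by
    intro y hy
    rw [((hZ y).1 hy).2]
    exact Z.zero_mem
  have hgv : h *ᵥ ((Polynomial.aeval D g) *ᵥ (h *ᵥ v')) = 0 :=
    ((hZ _).1 (aeval_mem D Z hZD g _ hZv)).1
  have hgx : h *ᵥ x = h *ᵥ (D *ᵥ ((Polynomial.aeval D g) *ᵥ x)) := by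
    have hzP : x - D *ᵥ ((Polynomial.aeval D g) *ᵥ x) ∈ P :=
      P.sub_mem hxP (hDP _ (aeval_mem D P hDP g x hxP))
    have h1 := h6 a _ hzP (by
      have h2 : x - D *ᵥ ((Polynomial.aeval D g) *ᵥ x) = (1 - D * Polynomial.aeval D g) *ᵥ x := by
        rw [Matrix.sub_mulVec, Matrix.one_mulVec, Matrix.mulVec_mulVec]
      rw [h2, Matrix.mulVec_mulVec, hga, Matrix.zero_mulVec])
    rw [Matrix.mulVec_sub, sub_eq_zero] at h1
    exact h1
  have hhu : h *ᵥ u = h *ᵥ x := by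
    rw [hu', hwx, Matrix.mulVec_add, Matrix.mulVec_add, hDM, Matrix.mulVec_add, hgv, add_zero,
      hgx, Matrix.mulVec_mulVec _ D, Matrix.mulVec_mulVec x, hDg]
  -- `h v'` is algebraic
  have huHD : HD W V i u := by
    rw [hu]
    exact hDi _
  have hDu : D *ᵥ u = D *ᵥ x := by
    rw [hDv u huHD, hDv x hx1, hhu]
  have hhv2 : h *ᵥ v' = D *ᵥ w - D *ᵥ u := by
    rw [hDu, hwx, Matrix.mulVec_add, hDM]
    abel
  refine ⟨u, hualg, v', ?_, ?_, ?_⟩
  · have e : (2 * (r : ℤ) - 2) = (i : ℤ) - 2 := by rw [hi]; push_cast; ring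
    rw [e]
    exact hv'
  · rw [hhv2]
    exact Submodule.sub_mem _ hDw (halgD u hualg)
  · rw [Matrix.mulVec_add, hhu, ← Matrix.mulVec_add, ← hwx]

theorem pf_LEM (hRAT : T_RAT) : T_LEM := by
  intro K _ _ W n V hC hB M hM h hh hcomm hsq hrel r
  induction r with
  | zero =>
    intro hr w hw hhw
    obtain ⟨u, hu, v, hv, -, he⟩ := core hRAT W V hC hB hM hh hcomm hsq hrel hr
      ((inH_iff _ _).1 hw) hhw
    refine ⟨u, hu, ?_⟩
    rw [he, hv.eq_zero_neg (by simp), Matrix.mulVec_zero, add_zero]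
  | succ r ih =>
    intro hr w hw hhw
    obtain ⟨u, hu, v, hv, hhv, he⟩ := core hRAT W V hC hB hM hh hcomm hsq hrel hr
      ((inH_iff _ _).1 hw) hhw
    obtain ⟨u2, hu2, he2⟩ := ih (by omega) v ((inH_iff _ _).2 (by
      have e : (2 * ((r + 1 : ℕ) : ℤ) - 2) = ((2 * r : ℕ) : ℤ) := by push_cast; ring
      rwa [e] at hv)) (by
      have e : ((r + 1 : ℕ) : ℤ) = (r : ℤ) + 1 := by push_cast; ring
      rwa [e] at hhv)
    refine ⟨u + M *ᵥ u2, Submodule.add_mem _ hu ?_, ?_⟩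
    · have h1 := W.act_mem V V 1 r M (W.Lef_mem V M hM) u2 hu2
      have e : ((r + 1 : ℕ) : ℤ) = (r : ℤ) + 1 := by push_cast; ring
      rw [e]
      exact h1
    · rw [he, Matrix.mulVec_add, Matrix.mulVec_add, Matrix.mulVec_mulVec, Matrix.mulVec_mulVec,
        hcomm, ← Matrix.mulVec_mulVec, ← Matrix.mulVec_mulVec, he2]

end Pool.Agent.H48.CB
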